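import Pool.Agent.Helper83.RB.St2

/-! Project RB, module BOT. -/

set_option autoImplicit false

namespace Pool.Agent.Helper88.RB

open Pool.Agent.Helper83.RB
open scoped BigOperators commutatorElement

/-- the representation given by an action on a commutative group -/
def rep (p : ℕ) {G V : Type} [Group G] [CommGroup V] [Module (ZMod p) (Additive V)]
    (φ : G →* MulAut V) : G →* Module.End (ZMod p) (Additive V) where
  toFun := fun g => AddMonoidHom.toZModLinearMap p
    (MonoidHom.toAdditive (MulEquiv.toMonoidHom (φ g)))
  map_one' := by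
    apply LinearMap.ext
    intro w
    change Additive.ofMul ((φ 1) (Additive.toMul w)) = w
    rw [map_one]
    rfl
  map_mul' := by
    intro g h
    apply LinearMap.ext
    intro w
    change Additive.ofMul ((φ (g * h)) (Additive.toMul w))
      = Additive.ofMul (φ g (φ h (Additive.toMul w)))
    rw [map_mul]
    rfl

/-- an abelian normal subgroup of exponent `p` as a representation over `ZMod p` -/
theorem core {p : ℕ} [Fact p.Prime] {G : Type} [Group G] (hp : ∀ g : G, g ^ p = 1)
    (V : Subgroup G) [V.Normal] (hV : ∀ x ∈ V, ∀ y ∈ V, x * y = y * x) :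
    ∃ (W : Type) (_ : AddCommGroup W) (_ : Module (ZMod p) W)
      (ρ : Representation (ZMod p) G W) (e : W → G),
      (∀ a b, e (a + b) = e a * e b) ∧ Function.Injective e ∧ (∀ x, x ∈ V ↔ ∃ w, e w = x) ∧
        ∀ g w, e (ρ g w) = g * e w * g⁻¹ := by
  let iV : CommGroup V :=
    { (inferInstance : Group V) with mul_comm := fun a b => Subtype.ext (hV a a.2 b b.2) }
  let iW : Module (ZMod p) (Additive V) := AddCommGroup.zmodModule (n := p) (by
    intro x
    apply Additive.toMul.injective
    apply Subtype.ext
    exact hp _)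
  let φ : G →* MulAut V := MulAut.conjNormal
  refine ⟨Additive V, inferInstance, inferInstance, rep p φ,
    fun w => ((Additive.toMul w : V) : G), ?_, ?_, ?_, ?_⟩
  · intro a b
    rfl
  · intro a b h
    exact Additive.toMul.injective (Subtype.ext h)
  · intro x
    constructor
    · intro hx
      exact ⟨Additive.ofMul ⟨x, hx⟩, rfl⟩
    · rintro ⟨w, rfl⟩
      exact (Additive.toMul w : V).2
  · intro g w
    rfl

theorem hBOT (hNIR : StNIR) : StBOT := by
  intro p d _
  obtain ⟨C, hC⟩ := hNIR p d
  refine ⟨C, ?_⟩
  intro m G _ hp hf V _ hV a ha hR k hk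
  obtain ⟨W, _, _, ρ, e, eadd, einj, eV, eρ⟩ := core hp V hV
  have e0 : e 0 = 1 := by
    have h := eadd 0 0
    rw [add_zero] at h
    exact (left_eq_mul.mp h)
  have eneg : ∀ w, e (-w) = (e w)⁻¹ := by
    intro w
    apply eq_inv_of_mul_eq_one_left
    rw [← eadd, neg_add_cancel, e0]
  have enat : ∀ (n : ℕ) w, e (n • w) = e w ^ n := by
    intro n w
    induction n with
    | zero => rw [zero_smul, e0, pow_zero]
    | succ n ih => rw [succ_nsmul, eadd, ih, pow_succ]
  have elist : ∀ l : List W, e l.sum = (l.map e).prod := by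
    intro l
    induction l with
    | nil => simpa using e0
    | cons x l ih => rw [List.sum_cons, eadd, ih, List.map_cons, List.prod_cons]
  have hML : MLRel p d ρ := by
    refine ⟨fun σ => (a σ : ZMod p), ?_, ?_⟩
    · obtain ⟨σ, hσ⟩ := ha
      intro h
      apply hσ
      have := congrFun h σ
      exact (ZMod.natCast_eq_zero_iff _ _).1 this
    · intro g
      apply LinearMap.ext
      intro w
      apply einj
      rw [LinearMap.sum_apply, LinearMap.zero_apply, e0, ← Finset.sum_map_toList, elist,
        List.map_map]
      have h := hR g (e w) ((eV _).2 ⟨w, rfl⟩)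
      rw [← h]
      congr 1
      apply List.map_congr_left
      intro σ _
      change e (((a σ : ℕ) : ZMod p) • ρ (List.ofFn fun i => g (σ i)).prod w) = _
      rw [Nat.cast_smul_eq_nsmul, enat, eρ]
  have hT := hC m G hp hf W ρ hML
  -- the filtration
  let S : ℕ → Set G := fun j =>
    {x | ∃ (l : List G) (w : W), l.length = j ∧
      x = e ((List.map (fun g : G => ρ g - 1) l).prod w)}
  have hSV : ∀ j, Subgroup.closure (S j) ≤ V := by
    intro j
    rw [Subgroup.closure_le]
    rintro x ⟨l, w, _, rfl⟩
    exact (eV _).2 ⟨_, rfl⟩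
  have key : ∀ j, (⊤ : Subgroup G).lowerCentralSeries (k + j) ≤ Subgroup.closure (S j) := by
    intro j
    induction j with
    | zero =>
      intro x hx
      obtain ⟨w, rfl⟩ := (eV x).1 (hk hx)
      apply Subgroup.subset_closure
      exact ⟨[], w, rfl, by simp⟩
    | succ j ih =>
      rw [← add_assoc, Subgroup.lowerCentralSeries_succ, Subgroup.commutator_le]
      intro u hu g _
      have hu' := ih hu
      clear hu
      induction hu' using Subgroup.closure_induction with
      | mem x hx =>
        obtain ⟨l, w, hl, rfl⟩ := hx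
        have h1 : ⁅g, e ((List.map (fun g : G => ρ g - 1) l).prod w)⁆ ∈ Subgroup.closure (S (j + 1)) := by
          apply Subgroup.subset_closure
          refine ⟨g :: l, w, by simp [hl], ?_⟩
          rw [List.map_cons, List.prod_cons, Module.End.mul_apply, LinearMap.sub_apply,
            sub_eq_add_neg, eadd, eneg, eρ, Module.End.one_apply, commutatorElement_def]
        rw [← commutatorElement_inv]
        exact inv_mem h1
      | one => simp
      | mul x y hx hy ihx ihy =>
        have hxV := hSV j hx
        have hyV := hSV j hy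
        have h1 : ⁅x * y, g⁆ = ⁅x, g⁆ * ⁅y, g⁆ := by
          have hx' : g * x⁻¹ * g⁻¹ ∈ V := Subgroup.Normal.conj_mem inferInstance _ (inv_mem hxV) g
          have hy' : ⁅y, g⁆ ∈ V := by
            rw [commutatorElement_def]
            have : y * g * y⁻¹ * g⁻¹ = y * (g * y⁻¹ * g⁻¹) := by group
            rw [this]
            exact mul_mem hyV (Subgroup.Normal.conj_mem inferInstance _ (inv_mem hyV) g)
          have hc := hV _ hx' _ hy'
          calc ⁅x * y, g⁆ = x * (⁅y, g⁆ * (g * x⁻¹ * g⁻¹)) := by
                rw [commutatorElement_def, commutatorElement_def]; group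
            _ = x * ((g * x⁻¹ * g⁻¹) * ⁅y, g⁆) := by rw [hc]
            _ = ⁅x, g⁆ * ⁅y, g⁆ := by
                rw [commutatorElement_def, commutatorElement_def]; group
        rw [h1]
        exact mul_mem ihx ihy
      | inv x hx ihx =>
        have hxV := hSV j hx
        have h1 : ⁅x⁻¹, g⁆ = ⁅x, g⁆⁻¹ := by
          have hx' : g * x * g⁻¹ ∈ V := Subgroup.Normal.conj_mem inferInstance _ hxV g
          have hc := hV _ hx' _ (inv_mem hxV)
          calc ⁅x⁻¹, g⁆ = x⁻¹ * (g * x * g⁻¹) := by
                rw [commutatorElement_def]; group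
            _ = (g * x * g⁻¹) * x⁻¹ := hc.symm
            _ = ⁅x, g⁆⁻¹ := by
                rw [commutatorElement_def]; group
        rw [h1]
        exact inv_mem ihx
  rw [eq_bot_iff]
  refine (key _).trans ?_
  rw [Subgroup.closure_le]
  rintro x ⟨l, w, hl, rfl⟩
  rw [hT l hl.ge, LinearMap.zero_apply, e0]
  exact Subgroup.mem_bot.2 rfl

end Pool.Agent.Helper88.RB
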